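import Pool.Agent.W312.TP.Stm
import Pool.Agent.H601R2.PP
import Pool.Agent.H673R2.TsTree

/-!
# TREE t-SPANNER is in NP
-/

set_option autoImplicit false

namespace Pool.Agent.W947.TP

open Pool.Agent.NPC Pool.Agent.H673R2 Pool.Agent.H673R2.Ts Pool.Agent.W312.TP

/-! ### Lists without repetition -/

theorem pairwise_iff_zipIdx {β : Type} (l : List β) (R : β → β → Prop) :
    (∀ x ∈ l.zipIdx, ∀ y ∈ l.zipIdx, ¬ x.2 < y.2 ∨ R x.1 y.1) ↔ l.Pairwise R := by
  rw [List.pairwise_iff_getElem]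
  constructor
  · intro h i j hi hj hij
    have h1 := h (l[i], i) (by
      rw [List.mem_zipIdx_iff_getElem?]; simp [hi]) (l[j], j) (by
      rw [List.mem_zipIdx_iff_getElem?]; simp [hj])
    rcases h1 with h1 | h1
    · exact absurd hij h1
    · exact h1
  · rintro h ⟨x, i⟩ hx ⟨y, j⟩ hy
    rw [List.mem_zipIdx_iff_getElem?] at hx hy
    simp only at hx hy ⊢
    by_cases hij : i < j
    · right
      obtain ⟨hi, hi'⟩ := List.getElem?_eq_some_iff.1 hx
      obtain ⟨hj, hj'⟩ := List.getElem?_eq_some_iff.1 hy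
      have := h i j hi hj hij
      rwa [hi', hj'] at this
    · exact Or.inl hij

theorem pp_nodup {α β : Type} [TEnc α] [TEnc β] {l : α → List β} (hl : Poly l) :
    PP (fun a => (l a).Nodup) := by
  refine PP.congr (p := fun a => ∀ x ∈ (l a).zipIdx, ∀ y ∈ (l a).zipIdx, ¬ x.2 < y.2 ∨ x.1 ≠ y.1)
    ?_ (fun a => pairwise_iff_zipIdx _ _)
  refine PP.ball (r := fun a (x : β × ℕ) => ∀ y ∈ (l a).zipIdx, ¬ x.2 < y.2 ∨ x.1 ≠ y.1)
    (Poly.zipIdx hl) ?_
  refine PP.ball (l := fun z : α × (β × ℕ) => (l z.1).zipIdx)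
    (r := fun (z : α × (β × ℕ)) (y : β × ℕ) => ¬ z.2.2 < y.2 ∨ z.2.1 ≠ y.1)
    (Poly.zipIdx (hl.comp (Poly.fst Poly.id))) ?_
  exact PP.or (PP.not (PP.lt (by fun_prop) (by fun_prop))) (PP.ne (by fun_prop) (by fun_prop))

/-! ### Certificates -/

/-- A certificate: for every vertex its parent and its level. -/
abbrev Cr : Type := List (ℕ × ℕ)

/-- There is a walk of length at most `s` from `x` to `y` in the tree given by `P`. -/
def Rch : ℕ → Cr → ℕ → ℕ → Prop
  | 0, _, x, y => x = y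
  | s + 1, P, x, y => x = y ∨ ∃ z ∈ P.zipIdx, z.2 ≠ 0 ∧
      ((z.2 = x ∧ Rch s P z.1.1 y) ∨ (z.1.1 = x ∧ Rch s P z.2 y))

theorem pp_rch : ∀ s : ℕ, PP (fun q : Cr × ℕ × ℕ => Rch s q.1 q.2.1 q.2.2)
  | 0 => PP.eq (by fun_prop) (by fun_prop)
  | s + 1 => by
    have ih := pp_rch s
    refine PP.or (PP.eq (by fun_prop) (by fun_prop)) ?_
    refine PP.bex (l := fun q : Cr × ℕ × ℕ => q.1.zipIdx)
      (r := fun (q : Cr × ℕ × ℕ) (z : (ℕ × ℕ) × ℕ) => z.2 ≠ 0 ∧
        ((z.2 = q.2.1 ∧ Rch s q.1 z.1.1 q.2.2) ∨ (z.1.1 = q.2.1 ∧ Rch s q.1 z.2 q.2.2)))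
      (by fun_prop) ?_
    refine PP.and (PP.ne (by fun_prop) (by fun_prop)) (PP.or (PP.and (PP.eq (by fun_prop)
      (by fun_prop)) ?_) (PP.and (PP.eq (by fun_prop) (by fun_prop)) ?_))
    · exact ih.comp (f := fun w : (Cr × ℕ × ℕ) × ((ℕ × ℕ) × ℕ) => (w.1.1, w.2.1.1, w.1.2.2))
        (by fun_prop)
    · exact ih.comp (f := fun w : (Cr × ℕ × ℕ) × ((ℕ × ℕ) × ℕ) => (w.1.1, w.2.2, w.1.2.2))
        (by fun_prop)

/-- The test of a certificate. -/
def Chk (t : ℕ) (q : Inst × Cr) : Prop :=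
  q.1.2.Nodup ∧ (∀ e ∈ q.1.2, e.1 < e.2 ∧ e.2 < q.1.1) ∧ q.2.length = q.1.1 ∧ q.1.1 ≠ 0 ∧
  (∀ z ∈ q.2.zipIdx, z.2 = 0 ∨ (((z.1.1, z.2) ∈ q.1.2 ∨ (z.2, z.1.1) ∈ q.1.2) ∧
     ∃ z' ∈ q.2.zipIdx, z'.2 = z.1.1 ∧ z'.1.2 < z.1.2)) ∧
  ∀ e ∈ q.1.2, Rch t q.2 e.1 e.2

theorem pp_chk (t : ℕ) : PP (Chk t) := by
  unfold Chk
  refine PP.and (pp_nodup (by fun_prop)) (PP.and ?_ (PP.and (PP.eq (by fun_prop) (by fun_prop))
    (PP.and (PP.ne (by fun_prop) (by fun_prop)) (PP.and ?_ ?_))))
  · refine PP.ball (l := fun q : Inst × Cr => q.1.2)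
      (r := fun (q : Inst × Cr) (e : ℕ × ℕ) => e.1 < e.2 ∧ e.2 < q.1.1) (by fun_prop) ?_
    exact PP.and (PP.lt (by fun_prop) (by fun_prop)) (PP.lt (by fun_prop) (by fun_prop))
  · refine PP.ball (l := fun q : Inst × Cr => q.2.zipIdx)
      (r := fun (q : Inst × Cr) (z : (ℕ × ℕ) × ℕ) => z.2 = 0 ∨
        (((z.1.1, z.2) ∈ q.1.2 ∨ (z.2, z.1.1) ∈ q.1.2) ∧
        ∃ z' ∈ q.2.zipIdx, z'.2 = z.1.1 ∧ z'.1.2 < z.1.2)) (by fun_prop) ?_
    refine PP.or (PP.eq (by fun_prop) (by fun_prop)) (PP.and (PP.or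
      (PP.mem (by fun_prop) (by fun_prop)) (PP.mem (by fun_prop) (by fun_prop))) ?_)
    refine PP.bex (l := fun w : (Inst × Cr) × ((ℕ × ℕ) × ℕ) => w.1.2.zipIdx)
      (r := fun (w : (Inst × Cr) × ((ℕ × ℕ) × ℕ)) (z' : (ℕ × ℕ) × ℕ) =>
        z'.2 = w.2.1.1 ∧ z'.1.2 < w.2.1.2) (by fun_prop) ?_
    exact PP.and (PP.eq (by fun_prop) (by fun_prop)) (PP.lt (by fun_prop) (by fun_prop))
  · refine PP.ball (l := fun q : Inst × Cr => q.1.2)
      (r := fun (q : Inst × Cr) (e : ℕ × ℕ) => Rch t q.2 e.1 e.2) (by fun_prop) ?_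
    exact (pp_rch t).comp (f := fun w : (Inst × Cr) × (ℕ × ℕ) => (w.1.2, w.2.1, w.2.2))
      (by fun_prop)

/-! ### Correctness -/

section

variable {n : ℕ} (r : Fin n) (par : Fin n → Fin n)

/-- The graph of a parent function. -/
def PG : SimpleGraph (Fin n) := SimpleGraph.fromRel fun x y : Fin n => x ≠ r ∧ y = par x

theorem rch_walk (P : Cr) (hr : (r : ℕ) = 0) (hne : ∀ x, x ≠ r → par x ≠ x)
    (hP : ∀ x : Fin n, x ≠ r → ∃ l, P[(x : ℕ)]? = some ((par x : ℕ), l)) (hlen : P.length = n) :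
    ∀ (s : ℕ) (x y : Fin n), Rch s P x y → ∃ p : (PG r par).Walk x y, p.length ≤ s := by
  intro s
  induction s with
  | zero =>
    intro x y h
    have : x = y := Fin.ext h
    subst this
    exact ⟨SimpleGraph.Walk.nil, by simp⟩
  | succ s ih =>
    intro x y h
    rcases h with h | ⟨z, hz, hz0, h⟩
    · have : x = y := Fin.ext h
      subst this
      exact ⟨SimpleGraph.Walk.nil, by simp⟩
    · obtain ⟨⟨p, l⟩, i⟩ := z
      rw [List.mem_zipIdx_iff_getElem?] at hz
      simp only at hz hz0 h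
      obtain ⟨hi, -⟩ := List.getElem?_eq_some_iff.1 hz
      rw [hlen] at hi
      set v : Fin n := ⟨i, hi⟩ with hv
      have hvr : v ≠ r := by
        intro h1
        apply hz0
        rw [← hr, ← h1]
      obtain ⟨l', hl'⟩ := hP v hvr
      have hl2 : P[i]? = some ((par v : ℕ), l') := hl'
      rw [hz] at hl2
      simp only [Option.some.injEq, Prod.mk.injEq] at hl2
      have hadj : (PG r par).Adj v (par v) := by
        unfold PG
        rw [SimpleGraph.fromRel_adj]
        exact ⟨fun h1 => hne v hvr h1.symm, Or.inl ⟨hvr, rfl⟩⟩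
      rcases h with ⟨h1, h2⟩ | ⟨h1, h2⟩
      · have hx : v = x := Fin.ext h1
        subst hx
        rw [hl2.1] at h2
        obtain ⟨q, hq⟩ := ih (par v) y h2
        exact ⟨SimpleGraph.Walk.cons hadj q, by simpa using hq⟩
      · have hx : par v = x := by
          apply Fin.ext
          rw [← hl2.1, h1]
        obtain ⟨q, hq⟩ := ih v y h2
        refine ⟨SimpleGraph.Walk.cons (hx ▸ hadj.symm) q, by simpa using hq⟩

theorem rch_of_walk (P : Cr) (hr : (r : ℕ) = 0)
    (hP : ∀ x : Fin n, x ≠ r → ∃ l, P[(x : ℕ)]? = some ((par x : ℕ), l)) :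
    ∀ {x y : Fin n} (p : (PG r par).Walk x y) (s : ℕ), p.length ≤ s → Rch s P x y := by
  intro x y p
  induction p with
  | nil =>
    intro s _
    cases s with
    | zero => exact rfl
    | succ s => exact Or.inl rfl
  | @cons a b c hab p ih =>
    intro s hs
    rw [SimpleGraph.Walk.length_cons] at hs
    cases s with
    | zero => omega
    | succ s =>
      have h1 := ih s (by omega)
      right
      unfold PG at hab
      rw [SimpleGraph.fromRel_adj] at hab
      obtain ⟨-, ⟨h2, h3⟩ | ⟨h2, h3⟩⟩ := hab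
      · obtain ⟨l, hl⟩ := hP a h2
        refine ⟨(((par a : ℕ), l), (a : ℕ)), ?_, ?_, Or.inl ⟨rfl, ?_⟩⟩
        · rw [List.mem_zipIdx_iff_getElem?]
          exact hl
        · intro h4
          exact h2 (Fin.ext (h4.trans hr.symm))
        · rw [← h3]
          exact h1
      · obtain ⟨l, hl⟩ := hP b h2
        refine ⟨(((par b : ℕ), l), (b : ℕ)), ?_, ?_, Or.inr ⟨?_, h1⟩⟩
        · rw [List.mem_zipIdx_iff_getElem?]
          exact hl
        · intro h4
          exact h2 (Fin.ext (h4.trans hr.symm))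
        · simp only
          rw [h3]

end

theorem sound (t : ℕ) (I : Inst) (P : Cr) (h : Chk t (I, P)) : Valid I ∧ HasTreeSpanner t I := by
  classical
  obtain ⟨n, E⟩ := I
  obtain ⟨h1, h2, h3, h4, h5, h6⟩ := h
  simp only at h1 h2 h3 h4 h5 h6
  have hn : 0 < n := Nat.pos_of_ne_zero h4
  set r : Fin n := ⟨0, hn⟩ with hr
  have hex : ∀ x : Fin n, ∃ (p : Fin n) (l : ℕ), x ≠ r → P[(x : ℕ)]? = some ((p : ℕ), l) ∧
      (((p : ℕ), (x : ℕ)) ∈ E ∨ ((x : ℕ), (p : ℕ)) ∈ E) ∧
      ∃ p' l' : ℕ, P[(p : ℕ)]? = some (p', l') ∧ l' < l := by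
    intro x
    by_cases hx : x = r
    · exact ⟨x, 0, fun h => absurd hx h⟩
    · have hxl : (x : ℕ) < P.length := by rw [h3]; exact x.2
      have hz : (P[(x : ℕ)], (x : ℕ)) ∈ P.zipIdx := by
        rw [List.mem_zipIdx_iff_getElem?]
        simp
      rcases h5 _ hz with h | ⟨h7, z', hz', h8, h9⟩
      · exact absurd (Fin.ext h) hx
      · simp only at h7 h8 h9
        rw [List.mem_zipIdx_iff_getElem?] at hz'
        obtain ⟨hi, -⟩ := List.getElem?_eq_some_iff.1 hz'
        rw [h8, h3] at hi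
        refine ⟨⟨(P[(x : ℕ)]).1, hi⟩, (P[(x : ℕ)]).2, fun _ => ⟨?_, h7, ?_⟩⟩
        · simp
        · rw [h8] at hz'
          exact ⟨z'.1.1, z'.1.2, hz', h9⟩
  choose par lv hpar using hex
  have hlev : ∀ x : Fin n, x ≠ r → (P.getD (par x : ℕ) (0, 0)).2 < (P.getD (x : ℕ) (0, 0)).2 := by
    intro x hx
    obtain ⟨g1, g2, p', l', g3, g4⟩ := hpar x hx
    rw [List.getD_eq_getElem?_getD, List.getD_eq_getElem?_getD, g1, g3]
    exact g4
  have hne : ∀ x, x ≠ r → par x ≠ x := by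
    intro x hx h7
    have := hlev x hx
    rw [h7] at this
    exact lt_irrefl _ this
  have hT : (PG r par).IsTree := isTree_of_parent r par (fun x => (P.getD (x : ℕ) (0, 0)).2) hlev
  have hle : PG r par ≤ graphOf (n, E) := by
    intro x y hxy
    unfold PG at hxy
    rw [SimpleGraph.fromRel_adj] at hxy
    unfold graphOf
    rw [SimpleGraph.fromRel_adj]
    refine ⟨hxy.1, ?_⟩
    rcases hxy.2 with ⟨g1, g2⟩ | ⟨g1, g2⟩
    · have g3 := (hpar x g1).2.1
      rw [← g2] at g3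
      exact g3.symm
    · have g3 := (hpar y g1).2.1
      rw [← g2] at g3
      exact g3
  have hconn : (graphOf (n, E)).Connected := hT.1.mono hle
  refine ⟨⟨h1, h2, hconn⟩, PG r par, hle, hT, ?_⟩
  refine stretch_of_adj hconn hT.1 fun x y hxy => ?_
  have key : ∀ x y : Fin n, ((x : ℕ), (y : ℕ)) ∈ E → (PG r par).dist x y ≤ t := by
    intro x y h7
    obtain ⟨p, hp⟩ := rch_walk r par P rfl hne (fun x hx => ⟨lv x, (hpar x hx).1⟩) h3 t x y
      (h6 _ h7)
    exact (SimpleGraph.dist_le p).trans hp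
  unfold graphOf at hxy
  rw [SimpleGraph.fromRel_adj] at hxy
  rcases hxy.2 with h7 | h7
  · exact key x y h7
  · rw [SimpleGraph.dist_comm]
    exact key y x h7

theorem complete (t : ℕ) (I : Inst) (hV : Valid I) (hS : HasTreeSpanner t I) :
    ∃ P : Cr, Chk t (I, P) ∧ ∀ z ∈ P, z.1 < I.1 ∧ z.2 < I.1 := by
  classical
  obtain ⟨n, E⟩ := I
  obtain ⟨h1, h2, h3⟩ := hV
  obtain ⟨T, hle, hT, hst⟩ := hS
  simp only at h1 h2
  have hne0 : Nonempty (Fin n) := h3.nonempty
  obtain ⟨v0⟩ := hne0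
  have hn : 0 < n := lt_of_le_of_lt (Nat.zero_le _) v0.2
  set r : Fin n := ⟨0, hn⟩ with hr
  have hex : ∀ x : Fin n, ∃ p : Fin n, x ≠ r → T.Adj x p ∧ T.dist p r < T.dist x r := by
    intro x
    by_cases hx : x = r
    · exact ⟨x, fun h => absurd hx h⟩
    · obtain ⟨p, hp⟩ := hT.1.exists_walk_length_eq_dist x r
      cases p with
      | nil => exact absurd rfl hx
      | @cons _ b _ hab p =>
        refine ⟨b, fun _ => ⟨hab, ?_⟩⟩
        rw [SimpleGraph.Walk.length_cons] at hp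
        have := SimpleGraph.dist_le p
        omega
  choose par hpar using hex
  have hT' : (PG r par).IsTree := isTree_of_parent r par (fun x => T.dist x r)
    fun x hx => (hpar x hx).2
  have hle' : PG r par ≤ T := by
    intro x y hxy
    unfold PG at hxy
    rw [SimpleGraph.fromRel_adj] at hxy
    rcases hxy.2 with ⟨g1, g2⟩ | ⟨g1, g2⟩
    · rw [g2]
      exact (hpar x g1).1
    · rw [g2]
      exact (hpar y g1).1.symm
  have heq : PG r par = T :=
    le_antisymm hle' ((SimpleGraph.isTree_iff_minimal_connected.1 hT).2 hT'.1 hle')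
  have hdist : ∀ x y : Fin n, T.dist x y < n := by
    intro x y
    obtain ⟨p, hp, hpl⟩ := hT.1.exists_path_of_dist x y
    rw [← hpl]
    have := hp.length_lt
    simpa using this
  have hget : ∀ x : Fin n, (List.ofFn fun x : Fin n => ((par x : ℕ), T.dist x r))[(x : ℕ)]? =
      some ((par x : ℕ), T.dist x r) := by
    intro x
    rw [List.getElem?_ofFn]
    simp
  refine ⟨List.ofFn fun x : Fin n => ((par x : ℕ), T.dist x r), ?_, ?_⟩
  · refine ⟨h1, h2, ?_, hn.ne', ?_, ?_⟩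
    · simp
    · intro z hz
      obtain ⟨⟨p, l⟩, i⟩ := z
      rw [List.mem_zipIdx_iff_getElem?] at hz
      simp only at hz ⊢
      obtain ⟨hi, -⟩ := List.getElem?_eq_some_iff.1 hz
      rw [List.length_ofFn] at hi
      have hx := hget ⟨i, hi⟩
      simp only at hx
      rw [hz] at hx
      simp only [Option.some.injEq, Prod.mk.injEq] at hx
      by_cases h0 : i = 0
      · exact Or.inl h0
      · right
        have hxr : (⟨i, hi⟩ : Fin n) ≠ r := by
          intro h
          apply h0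
          have := congrArg Fin.val h
          simpa using this
        obtain ⟨g1, g2⟩ := hpar _ hxr
        have g3 := hle g1
        unfold graphOf at g3
        rw [SimpleGraph.fromRel_adj] at g3
        refine ⟨?_, ?_⟩
        · rw [hx.1]
          rcases g3.2 with g4 | g4
          · exact Or.inr g4
          · exact Or.inl g4
        · refine ⟨(((par (par ⟨i, hi⟩) : ℕ), T.dist (par ⟨i, hi⟩) r), (par ⟨i, hi⟩ : ℕ)), ?_, ?_, ?_⟩
          · rw [List.mem_zipIdx_iff_getElem?]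
            exact hget _
          · simp only
            rw [hx.1]
          · simp only
            rw [hx.2]
            exact g2
    · intro e he
      obtain ⟨a, b⟩ := e
      have g1 := h2 _ he
      simp only at g1 he ⊢
      have ha : a < n := by omega
      set x : Fin n := ⟨a, ha⟩
      set y : Fin n := ⟨b, g1.2⟩
      have hxy : (graphOf (n, E)).Adj x y := by
        unfold graphOf
        rw [SimpleGraph.fromRel_adj]
        refine ⟨?_, Or.inl he⟩
        intro h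
        have := congrArg Fin.val h
        simp only [x, y] at this
        omega
      have g2 := hst x y
      have g3 : (graphOf (n, E)).dist x y ≤ 1 := by
        have := SimpleGraph.dist_le (SimpleGraph.Walk.cons hxy SimpleGraph.Walk.nil)
        simpa using this
      have g4 : T.dist x y ≤ t := g2.trans (by nlinarith)
      obtain ⟨p, hp⟩ := hT'.1.exists_walk_length_eq_dist x y
      have g5 : p.length ≤ t := by
        rw [hp, heq]
        exact g4
      exact rch_of_walk r par _ rfl (fun x _ => ⟨_, hget x⟩) p t g5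
  · intro z hz
    rw [List.mem_ofFn] at hz
    obtain ⟨x, rfl⟩ := hz
    exact ⟨(par x).2, hdist _ _⟩

theorem card_le (I : Inst) (hV : Valid I) : I.1 ≤ I.2.length + 1 := by
  classical
  obtain ⟨h1, h2, h3⟩ := hV
  have h4 := h3.card_vert_le_card_edgeSet_add_one
  rw [Nat.card_eq_fintype_card, Fintype.card_fin] at h4
  have h5 : Nat.card (graphOf I).edgeSet ≤ I.2.length := by
    have h6 : (graphOf I).edgeSet ⊆ ((I.2.toFinset.image fun e : ℕ × ℕ =>
        if h : e.1 < I.1 ∧ e.2 < I.1 then s((⟨e.1, h.1⟩ : Fin I.1), (⟨e.2, h.2⟩ : Fin I.1))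
        else s(⟨0, by
          obtain ⟨v0⟩ := h3.nonempty
          exact lt_of_le_of_lt (Nat.zero_le _) v0.2⟩, ⟨0, by
          obtain ⟨v0⟩ := h3.nonempty
          exact lt_of_le_of_lt (Nat.zero_le _) v0.2⟩) : Finset (Sym2 (Fin I.1))) :
        Set (Sym2 (Fin I.1))) := by
      intro e
      induction e using Sym2.ind with
      | _ x y =>
        intro h
        rw [SimpleGraph.mem_edgeSet] at h
        unfold graphOf at h
        rw [SimpleGraph.fromRel_adj] at h
        rw [Finset.mem_coe, Finset.mem_image]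
        rcases h.2 with h7 | h7
        · refine ⟨((x : ℕ), (y : ℕ)), List.mem_toFinset.2 h7, ?_⟩
          rw [dif_pos ⟨x.2, y.2⟩]
        · refine ⟨((y : ℕ), (x : ℕ)), List.mem_toFinset.2 h7, ?_⟩
          rw [dif_pos ⟨y.2, x.2⟩]
          exact Sym2.eq_swap
    rw [Nat.card_coe_set_eq]
    refine (Set.ncard_le_ncard h6 (Finset.finite_toSet _)).trans ?_
    rw [Set.ncard_coe_finset]
    exact Finset.card_image_le.trans (List.toFinset_card_le _)
  omega

theorem proof_NPM : Pool.Agent.W312.TP.NPM := by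
  intro t
  obtain ⟨b, hb, hb'⟩ := pp_chk t
  refine inNPP_of (β := Cr) hb (Polynomial.X * (8 * Polynomial.X + 4) + 1) fun I => ?_
  constructor
  · rintro ⟨hV, hS⟩
    obtain ⟨P, h1, h2⟩ := complete t I hV hS
    refine ⟨P, ?_, (hb' _).2 h1⟩
    have h3 := card_le I hV
    have h4 : sz I = sz I.1 + sz I.2 + 1 := sz_pair I.1 I.2
    have h5 := length_lt_sz I.2
    have h6 : I.1 ≤ sz I := by omega
    have h7 : sz P ≤ P.length * (8 * sz I + 3 + 1) + 1 := by
      refine sz_le_length_mul _ _ fun z hz => ?_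
      obtain ⟨h8, h9⟩ := h2 z hz
      have h10 : sz z = sz z.1 + sz z.2 + 1 := sz_pair z.1 z.2
      have h11 := sz_nat_le z.1
      have h12 := sz_nat_le z.2
      have h13 := NPC.Poly.size_le_self z.1
      have h14 := NPC.Poly.size_le_self z.2
      omega
    have h8 : P.length = I.1 := h1.2.2.1
    have h9 : P.length * (8 * sz I + 3 + 1) ≤ sz I * (8 * sz I + 4) := by
      rw [h8]
      exact Nat.mul_le_mul h6 (by omega)
    simp only [Polynomial.eval_add, Polynomial.eval_mul, Polynomial.eval_X,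
      Polynomial.eval_ofNat, Polynomial.eval_one]
    omega
  · rintro ⟨P, _, h⟩
    exact sound t I P ((hb' _).1 h)

end Pool.Agent.W947.TP
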